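import Pool.Agent.H439.FA.Second

/-!
# The distribution of the values of the Nagao series near the line `Re s = 1`

Let `f : X → Y` be a fibration over a number field `K` of degree `n`, and let
`F(s) = - ∑_v A*_v(X) (log q_v) q_v^{-s}` be the series whose residue at `s = 1` should be the rank of
`P_X(K(Y)) / τB(K)` (the analytic generalized Nagao conjecture).  The coefficients are bounded (Deligne), and
so are those of the series `∑_v (B_v(X) / q_v) (log q_v) q_v^{-s}` of the Tate conjecture for the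
fibration.  For a general fibration nothing is known about such series outside of the half-plane
`Re s > 1` of absolute convergence; it is not known that they can be continued to any point of the line
`Re s = 1`.

The theorem determines the joint distribution of the values of several such series `F_1, ..., F_r`
(for several fibrations over `K`, or the series of one fibration at several shifted points) on the vertical
line at the distance `ε` from the edge: the distribution of `(F_1, ..., F_r)(1 + ε + i t)` for `t` in an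
interval of length `H` **at an arbitrary height** tends to a probability measure `ν` on `ℂ^r`, the distribution at
`s = 1` of the random series, in which the `p^{-it}` are replaced by independent random variables
with the uniform distribution on the unit circle, as soon as `ε → 0` and `H ε → ∞`.

* (1) In mean square the series is approximated by its partial sum over `q_v ≤ Y`, with the error
  `C (n M)² (Y^{-1/4} + (log H)⁴ / H + 1 / (H ε))`, for all intervals of length `H`, wherever they are.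
* (2) The averages over the interval of all continuous functions `f` with `|f(z)| ≤ D (1 + |z|²)` tend to
  `∫ f dν`, uniformly in the position of the interval, if `ε → 0` and `H ε → ∞`, and so do the expected values of `f` at the
  random series.
* (3) The second moments of `ν`: `∫ |z_k|² dν = ∑_n |A_n|² (log n / n)²` with `A_n = ∑_{q_v = n} a_v`;
  by (2) this is the limit of the mean squares of `F_k(1 + ε + i t)` over the intervals.

The theorem is stated for arbitrary bounded coefficients `a_v`.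
-/

set_option autoImplicit false

namespace Pool.Agent.Results.MP_3d3918_nt.NagaoEdgeLaw

open NumberField IsDedekindDomain MeasureTheory Filter Topology

section
variable {K : Type} [Field K] [NumberField K]

/-- The series `∑_v a_v g(q_v) (log q_v) q_v^{-s}` over the primes `v` of `K`, where `q_v` is the norm of
`v` and `g` is a function on the positive integers. -/
noncomputable def F (a : HeightOneSpectrum (𝓞 K) → ℂ) (g : ℕ → ℂ) (s : ℂ) : ℂ :=
  ∑' v : HeightOneSpectrum (𝓞 K), a v * (g (Ideal.absNorm v.asIdeal) *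
    (Real.log (Ideal.absNorm v.asIdeal) * ((Ideal.absNorm v.asIdeal : ℕ) : ℂ) ^ (-s)))

/-- The coefficients for `q_v ≤ Y`; the others are replaced by `0`. -/
noncomputable def cut (a : HeightOneSpectrum (𝓞 K) → ℂ) (Y : ℕ) (v : HeightOneSpectrum (𝓞 K)) : ℂ :=
  if Ideal.absNorm v.asIdeal ≤ Y then a v else 0

/-- `A_n = ∑_{q_v = n} a_v` (a finite sum). -/
noncomputable def coeff (a : HeightOneSpectrum (𝓞 K) → ℂ) (n : ℕ) : ℂ :=
  ∑ᶠ v ∈ {v : HeightOneSpectrum (𝓞 K) | Ideal.absNorm v.asIdeal = n}, a v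

/-- `(1/H) ∫ f(F_1(s + it), ..., F_r(s + it)) dt` over `[U, U + H]`. -/
noncomputable def mean {r : ℕ} (f : (Fin r → ℂ) → ℝ) (a : Fin r → HeightOneSpectrum (𝓞 K) → ℂ)
    (s : ℂ) (U H : ℝ) : ℝ :=
  H⁻¹ * ∫ t in Set.Icc U (U + H), f fun k => F (a k) (fun _ => 1) (s + t * Complex.I)

end

/-- The sequences `ω = (ω_p)` of points of the unit interval, indexed by the primes, with the product of
the uniform measures: the `ω_p` are independent and uniformly distributed. -/
noncomputable def unif : Measure (Nat.Primes → unitInterval) :=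
  Measure.infinitePi fun _ => (volume : Measure unitInterval)

/-- `X_p = exp(2πi ω_p)`, uniformly distributed on the unit circle. -/
noncomputable def atPrime (ω : Nat.Primes → unitInterval) (p : ℕ) : ℂ :=
  if h : p.Prime then Complex.exp (2 * Real.pi * Complex.I * ((ω ⟨p, h⟩ : ℝ) : ℂ)) else 1

/-- The random multiplicative function `∏_p X_p^{v_p(n)}`. -/
noncomputable def random (ω : Nat.Primes → unitInterval) (n : ℕ) : ℂ :=
  n.factorization.prod fun p k => atPrime ω p ^ k

/-- The expected value of `f` at the vector of the random series. -/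
noncomputable def expect {K : Type} [Field K] [NumberField K] {r : ℕ} (f : (Fin r → ℂ) → ℝ)
    (a : Fin r → HeightOneSpectrum (𝓞 K) → ℂ) (s : ℂ) : ℝ :=
  ∫ ω, f (fun k => F (a k) (random ω) s) ∂unif

section
open Pool.Agent.H439.LL Pool.Agent.H439.TA Pool.Agent.H439.FA Pool.Agent.TH339.MP

variable {K : Type} [Field K] [NumberField K]

lemma F_eq (a : HeightOneSpectrum (𝓞 K) → ℂ) (g : ℕ → ℂ) (ε t : ℝ) :
    F a g (1 + ε + t * Complex.I) = FS a (fun n => g n * Pool.Agent.H439.LS.ph (-t) n) ε := by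
  unfold F FS ft
  apply tsum_congr
  intro v
  have hpos : 0 < nm v := nm_pos v
  have hne : ((nm v : ℕ) : ℂ) ≠ 0 := by exact_mod_cast hpos.ne'
  change a v * (g (nm v) * (((Real.log (nm v) : ℝ) : ℂ) * ((nm v : ℕ) : ℂ) ^ (-(1 + (ε : ℂ) + t * Complex.I)))) =
    a v * (g (nm v) * Pool.Agent.H439.LS.ph (-t) (nm v) * ((Pool.Agent.H439.FA.wt ε (nm v) : ℝ) : ℂ))
  unfold Pool.Agent.H439.FA.wt Pool.Agent.H439.LS.ph
  have e : ((((nm v : ℝ) ^ (-(1 + ε)) : ℝ)) : ℂ) = ((nm v : ℕ) : ℂ) ^ (-(1 + (ε : ℂ))) := by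
    rw [Complex.ofReal_cpow (Nat.cast_nonneg _)]
    push_cast
    rfl
  rw [Complex.ofReal_mul, e]
  have e2 : ((nm v : ℕ) : ℂ) ^ (-(1 + (ε : ℂ) + t * Complex.I)) =
      ((nm v : ℕ) : ℂ) ^ (((-t : ℝ) : ℂ) * Complex.I) * ((nm v : ℕ) : ℂ) ^ (-(1 + (ε : ℂ))) := by
    rw [← Complex.cpow_add _ _ hne]
    congr 1
    push_cast
    ring
  rw [e2]
  ring

lemma F_one (a : HeightOneSpectrum (𝓞 K) → ℂ) (ε t : ℝ) :
    F a (fun _ => 1) (1 + ε + t * Complex.I) = FS a (Pool.Agent.H439.LS.ph (-t)) ε := by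
  rw [F_eq]
  congr 1
  funext n
  rw [one_mul]

lemma F_random (a : HeightOneSpectrum (𝓞 K) → ℂ) (ω : Nat.Primes → unitInterval) {ε : ℝ} :
    F a (random ω) (1 + ε) = FS a (gX 1 (fun n ω => rmf ω n) ω) ε := by
  have h := F_eq a (random ω) ε 0
  rw [Complex.ofReal_zero, zero_mul, add_zero] at h
  rw [h]
  congr 1
  funext n
  have h1 : gX 1 (fun n ω => rmf ω n) ω n = random ω n := by
    unfold gX
    rw [if_pos (Nat.coprime_one_right n)]
    rfl
  rw [h1]
  unfold Pool.Agent.H439.LS.ph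
  simp

lemma F_cut (a : HeightOneSpectrum (𝓞 K) → ℂ) (Y : ℕ) (ε t : ℝ) :
    F (cut a Y) (fun _ => 1) (1 + ε + t * Complex.I) =
      FY a (Pool.Agent.H439.LS.ph (-t)) ε Y := by
  rw [F_one]
  unfold FS FY
  rw [tsum_eq_sum (s := Vy K (Y : ℝ))]
  · apply Finset.sum_congr rfl
    intro v hv
    unfold ft cut
    rw [mem_Vy] at hv
    have h1 : Ideal.absNorm v.asIdeal ≤ Y := by
      have : nm v ≤ Y := by exact_mod_cast hv
      exact this
    rw [if_pos h1]
  · intro v hv
    unfold ft cut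
    rw [mem_Vy] at hv
    have h1 : ¬ Ideal.absNorm v.asIdeal ≤ Y := by
      intro h
      apply hv
      have : nm v ≤ Y := h
      exact_mod_cast this
    rw [if_neg h1, zero_mul]

lemma coeff_eq (a : HeightOneSpectrum (𝓞 K) → ℂ) (n : ℕ) : coeff a n = bn a n := by
  classical
  unfold coeff bn
  apply finsum_mem_eq_sum_of_inter_support_eq
  congr 1
  ext v
  rw [Finset.coe_filter, Set.mem_ofPred_eq, Set.mem_ofPred_eq, mem_Vy]
  constructor
  · intro h
    have h1 : nm v = n := h
    exact ⟨by rw [h1], h1⟩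
  · rintro ⟨_, h⟩
    exact h

lemma mean_eq {r : ℕ} (f : (Fin r → ℂ) → ℝ) (a : Fin r → HeightOneSpectrum (𝓞 K) → ℂ)
    (ε U : ℝ) {H : ℝ} (hH : 0 < H) : mean f a (1 + ε) U H =
      ∫ t, f (FSV a (Pool.Agent.H439.LS.ph (-t)) ε) ∂(tau U H) := by
  unfold mean tau
  simp_rw [F_one]
  rw [integral_smul_measure, ENNReal.toReal_inv, ENNReal.toReal_ofReal hH.le, smul_eq_mul]
  rfl

/-- **The distribution of the values of the Nagao series near the line `Re s = 1`.** -/
theorem result : ∃ C : ℝ, ∀ (K : Type) [Field K] [NumberField K] (r : ℕ)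
    (a : Fin r → HeightOneSpectrum (𝓞 K) → ℂ) (M : ℝ), 0 ≤ M → (∀ k v, ‖a k v‖ ≤ M) →
    -- (1) the approximation in mean square
    (∀ (k : Fin r) (Y : ℕ), 1 ≤ Y → ∀ U H ε : ℝ, 120000 ≤ H → 0 < ε → ε ≤ 1 / 2 →
      H⁻¹ * ∫ t in Set.Icc U (U + H), ‖F (a k) (fun _ => 1) (1 + ε + t * Complex.I) -
        F (cut (a k) Y) (fun _ => 1) (1 + ε + t * Complex.I)‖ ^ 2 ≤
        C * ((Module.finrank ℚ K : ℝ) * M) ^ 2 *
          ((Y : ℝ) ^ (-(1 / 4 : ℝ)) + Real.log H ^ 4 / H + 1 / (H * ε))) ∧
    ∃ ν : Measure (Fin r → ℂ), IsProbabilityMeasure ν ∧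
      -- (2) the limit law
      (∀ f : (Fin r → ℂ) → ℝ, Continuous f → (∃ D : ℝ, ∀ z, |f z| ≤ D * (1 + ‖z‖ ^ 2)) →
        Integrable f ν ∧
        (∀ (ι : Type) (l : Filter ι) (U H ε : ι → ℝ), Tendsto ε l (𝓝[>] 0) →
          Tendsto (fun i => H i * ε i) l atTop →
          Tendsto (fun i => mean f a (1 + (ε i : ℂ)) (U i) (H i)) l (𝓝 (∫ z, f z ∂ν))) ∧
        Tendsto (fun ε : ℝ => expect f a (1 + (ε : ℂ))) (𝓝[>] 0) (𝓝 (∫ z, f z ∂ν))) ∧
      -- (3) the second moments
      (∀ k : Fin r, HasSum (fun n : ℕ => (‖coeff (a k) n‖ * (Real.log n / n)) ^ 2)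
        (∫ z, ‖z k‖ ^ 2 ∂ν)) := by
  classical
  have hCA := CA_pos
  refine ⟨3072 + 128 * c₂ ^ 2 + 2 * CA, fun K _ _ r a M hM ha => ⟨?_, ?_⟩⟩
  · intro k Y hY U H ε hH hε hε1
    have hH0 : 0 < H := by linarith
    simp_rw [F_cut, F_one]
    have h1 := tail_t hH hε hε1 U hM (ha k) hY
    have h2 : H⁻¹ * ∫ t in Set.Icc U (U + H), ‖FS (a k) (Pool.Agent.H439.LS.ph (-t)) ε -
        FY (a k) (Pool.Agent.H439.LS.ph (-t)) ε Y‖ ^ 2 =
        ∫ t, ‖FS (a k) (Pool.Agent.H439.LS.ph (-t)) ε -
          FY (a k) (Pool.Agent.H439.LS.ph (-t)) ε Y‖ ^ 2 ∂(tau U H) := by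
      unfold tau
      rw [integral_smul_measure, ENNReal.toReal_inv, ENNReal.toReal_ofReal hH0.le, smul_eq_mul]
    rw [h2]
    refine h1.trans ?_
    set m : ℝ := (Module.finrank ℚ K : ℝ) * M with hm
    have hY0 : (1 : ℝ) ≤ Y := by exact_mod_cast hY
    have h3 : 3072 / Real.sqrt (Y : ℝ) ≤ 3072 * (Y : ℝ) ^ (-(1 / 4 : ℝ)) := by
      rw [div_eq_mul_inv, Real.sqrt_eq_rpow, ← Real.rpow_neg (by linarith)]
      apply mul_le_mul_of_nonneg_left _ (by norm_num)
      exact Real.rpow_le_rpow_of_exponent_le hY0 (by norm_num)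
    have h4 : 0 ≤ Real.log H ^ 4 / H := by positivity
    have h5 : 0 ≤ 1 / (H * ε) := by positivity
    have h6 : 0 ≤ (Y : ℝ) ^ (-(1 / 4 : ℝ)) := by positivity
    have h7 : CA / (H * ε) = CA * (1 / (H * ε)) := by ring
    rw [h7]
    unfold dl
    have h8 : m ^ 2 * (3072 / Real.sqrt (Y : ℝ) + 128 * c₂ ^ 2 * (Y : ℝ) ^ (-(1 / 4 : ℝ))) +
        2 * m ^ 2 * (CA * (Real.log H ^ 4 / H) + CA * (1 / (H * ε))) =
        m ^ 2 * (3072 / Real.sqrt (Y : ℝ) + 128 * c₂ ^ 2 * (Y : ℝ) ^ (-(1 / 4 : ℝ)) +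
          2 * CA * (Real.log H ^ 4 / H) + 2 * CA * (1 / (H * ε))) := by ring
    have h12 : (3072 + 128 * c₂ ^ 2 + 2 * CA) * m ^ 2 *
        ((Y : ℝ) ^ (-(1 / 4 : ℝ)) + Real.log H ^ 4 / H + 1 / (H * ε)) =
        m ^ 2 * ((3072 + 128 * c₂ ^ 2 + 2 * CA) *
          ((Y : ℝ) ^ (-(1 / 4 : ℝ)) + Real.log H ^ 4 / H + 1 / (H * ε))) := by ring
    rw [h8, h12]
    apply mul_le_mul_of_nonneg_left _ (by positivity)
    have h9 : 0 ≤ (3072 + 128 * c₂ ^ 2) * (Real.log H ^ 4 / H) := by positivity
    have h10 : 0 ≤ (3072 + 128 * c₂ ^ 2) * (1 / (H * ε)) := by positivity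
    have h11 : 0 ≤ 2 * CA * (Y : ℝ) ^ (-(1 / 4 : ℝ)) := by positivity
    linarith
  · obtain ⟨Z, hZm, hZ2, hZY, hlaw⟩ := exists_law hM ha
    refine ⟨pmu.map Z, Measure.isProbabilityMeasure_map hZm.aemeasurable, ?_, ?_⟩
    · rintro f hf ⟨D, hD⟩
      have hint : ∫ z, f z ∂(pmu.map Z) = ∫ ω, f (Z ω) ∂pmu :=
        integral_map hZm.aemeasurable hf.measurable.aestronglyMeasurable
      rw [hint]
      refine ⟨?_, ?_, ?_⟩
      · rw [integrable_map_measure hf.measurable.aestronglyMeasurable hZm.aemeasurable]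
        exact integrable_growth hf hD hZm hZ2
      · intro ι l U H ε hε hHε
        rw [Metric.tendsto_nhds]
        intro η hη
        obtain ⟨⟨T₀, ε₀, hε₀, h1⟩, -⟩ := hlaw f hf D hD (η / 2) (half_pos hη)
        filter_upwards [hε.eventually (Ioc_mem_nhdsGT hε₀), hHε.eventually_ge_atTop T₀,
          hHε.eventually_gt_atTop 0] with i hi1 hi2 hi3
        have hH : 0 < H i := by
          by_contra hcon
          rw [not_lt] at hcon
          have := mul_nonpos_of_nonpos_of_nonneg hcon hi1.1.le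
          linarith
        rw [Real.dist_eq, mean_eq f a (ε i) (U i) hH]
        have := h1 (U i) (H i) (ε i) hi1.1 hi1.2 hi2
        linarith
      · rw [Metric.tendsto_nhds]
        intro η hη
        obtain ⟨-, ε₀, hε₀, h1⟩ := hlaw f hf D hD (η / 2) (half_pos hη)
        filter_upwards [Ioc_mem_nhdsGT hε₀] with ε hε
        rw [Real.dist_eq]
        unfold expect
        simp_rw [F_random]
        have := h1 ε hε.1 hε.2
        change |∫ ω, f (FSV a (gX 1 (fun n ω => rmf ω n) ω) ε) ∂pmu - _| < η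
        linarith
    · intro k
      have hint : ∫ z, ‖z k‖ ^ 2 ∂(pmu.map Z) = ∫ ω, ‖Z ω k‖ ^ 2 ∂pmu := by
        rw [integral_map hZm.aemeasurable]
        exact ((measurable_pi_apply k).norm.pow_const 2).aestronglyMeasurable
      rw [hint]
      have hZk : Measurable fun ω => Z ω k := (measurable_pi_apply k).comp hZm
      have hZk2 : Integrable (fun ω => ‖Z ω k‖ ^ 2) pmu := by
        refine hZ2.mono' (hZk.norm.pow_const 2).aestronglyMeasurable
          (Eventually.of_forall fun ω => ?_)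
        rw [norm_pow, norm_norm]
        exact pow_le_pow_left₀ (norm_nonneg _) (norm_le_pi_norm _ k) 2
      have h1 := second hM (ha k) model hZk hZk2 (fun Y hY => hZY Y hY k)
      have h2 : (fun n : ℕ => (‖coeff (a k) n‖ * (Real.log n / n)) ^ 2) =
          fun n : ℕ => (‖bn (a k) n‖ * Pool.Agent.H439.FA.wt 0 n) ^ 2 := by
        funext n
        rw [coeff_eq]
        unfold Pool.Agent.H439.FA.wt
        rw [add_zero, Real.rpow_neg_one, div_eq_mul_inv]
      rw [h2]
      exact h1

end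

end Pool.Agent.Results.MP_3d3918_nt.NagaoEdgeLaw
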